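import Mathlib

/-!
Property (A) does not imply unconditionality.

The norm is the supremum over all finite sets `Γ`, with `m = Γ.card`, of
`d m * ∑ n ∈ Γ, ‖y n‖ + ‖∑ n ∉ Γ, n ≥ m, f n * y n‖`, where `w n = (n + 1) ^ (-1/2)`,
`f n = (-1) ^ n * w n` and `d m = (2 / m) * ∑ k < m, w k`.
Adding to `Γ` an index with coefficient of absolute value `1` (the largest one) increases the
first summand by at least `2 * w m` and changes the second one by at most `2 * w m`; this gives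
Property (A). The functional `∑ f n y n` is bounded, while the vectors `∑ n < K, w n e n` are
uniformly bounded and the sums `∑ n < K, w n * w n` are not; so the basis is conditional.
-/

namespace Pool.Agent.Results.MP_e9a5f2_an.PropertyANotUnconditional

open Finset Filter Topology

/-- Property (A) -/
def PropertyA {𝕜 X : Type} [RCLike 𝕜] [NormedAddCommGroup X] [NormedSpace 𝕜 X]
    (x : ℕ → X) (xs : ℕ → (X →L[𝕜] 𝕜)) : Prop :=
  ∀ (v : X) (A B : Finset ℕ) (ε η : ℕ → 𝕜), (∀ n, ‖xs n v‖ ≤ 1) → A.card = B.card →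
    Disjoint A B → (∀ n ∈ A ∪ B, xs n v = 0) → (∀ n ∈ A, ‖ε n‖ = 1) → (∀ n ∈ B, ‖η n‖ = 1) →
    ‖v + ∑ n ∈ A, ε n • x n‖ = ‖v + ∑ n ∈ B, η n • x n‖

/-- `x` with coordinate functionals `xs` is a semi-normalized Markushevich basis of `X`. -/
def IsBasis {𝕜 X : Type} [RCLike 𝕜] [NormedAddCommGroup X] [NormedSpace 𝕜 X]
    (x : ℕ → X) (xs : ℕ → (X →L[𝕜] 𝕜)) : Prop :=
  (Submodule.span 𝕜 (Set.range x)).topologicalClosure = ⊤ ∧
  (∀ n j, xs n (x j) = if n = j then 1 else 0) ∧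
  (∀ v, (∀ n, xs n v = 0) → v = 0) ∧
  ∃ C : ℝ, ∀ n, ‖x n‖ ≤ C ∧ ‖xs n‖ ≤ C

/-- unconditional: the expansion of every vector converges unconditionally to the vector. -/
def IsUnconditional {𝕜 X : Type} [RCLike 𝕜] [NormedAddCommGroup X] [NormedSpace 𝕜 X]
    (x : ℕ → X) (xs : ℕ → (X →L[𝕜] 𝕜)) : Prop :=
  ∀ v, HasSum (fun n => xs n v • x n) v

noncomputable def w (n : ℕ) : ℝ := 1 / Real.sqrt (n + 1)
noncomputable def D (m : ℕ) : ℝ := 2 * ∑ k ∈ range m, w k
noncomputable def d (m : ℕ) : ℝ := D m / m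

lemma w_pos (n : ℕ) : 0 < w n := by
  unfold w; positivity

lemma w_anti : Antitone w := by
  intro a b h
  unfold w
  apply one_div_le_one_div_of_le (by positivity)
  apply Real.sqrt_le_sqrt
  have : (a:ℝ) ≤ b := by exact_mod_cast h
  linarith

lemma w_zero : w 0 = 1 := by simp [w]

lemma w_le_one (n : ℕ) : w n ≤ 1 := by
  rw [← w_zero]; exact w_anti (Nat.zero_le n)

lemma w_sq (n : ℕ) : w n * w n = 1 / (n + 1 : ℝ) := by
  unfold w
  rw [div_mul_div_comm, Real.mul_self_sqrt (by positivity)]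
  norm_num

lemma D_nonneg (m : ℕ) : 0 ≤ D m := by
  unfold D
  have : 0 ≤ ∑ k ∈ range m, w k := Finset.sum_nonneg (fun k _ => (w_pos k).le)
  linarith

lemma D_succ (m : ℕ) : D (m + 1) = D m + 2 * w m := by
  unfold D; rw [Finset.sum_range_succ]; ring

lemma D_le (m : ℕ) : D m ≤ 2 * m := by
  induction m with
  | zero => simp [D]
  | succ m ih => rw [D_succ]; push_cast; linarith [w_le_one m]

lemma d_mul (m : ℕ) : d m * m = D m := by
  unfold d
  rcases Nat.eq_zero_or_pos m with h | h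
  · subst h; simp [D]
  · field_simp

lemma d_nonneg (m : ℕ) : 0 ≤ d m := div_nonneg (D_nonneg m) (Nat.cast_nonneg m)

lemma d_one : d 1 = 2 := by simp [d, D, w_zero]

lemma d_le (m : ℕ) : d m ≤ 2 := by
  rcases Nat.eq_zero_or_pos m with h | h
  · subst h; simp [d]
  · have h1 := d_mul m
    have h2 := D_le m
    have h3 : (0:ℝ) < m := by exact_mod_cast h
    nlinarith

lemma mul_w_le_D (m : ℕ) : 2 * w m * m ≤ D m := by
  unfold D
  have : ∑ k ∈ range m, w m ≤ ∑ k ∈ range m, w k := by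
    apply Finset.sum_le_sum
    intro k hk
    exact w_anti (Finset.mem_range.mp hk).le
  simp at this
  nlinarith

lemma d_succ_le (m : ℕ) (hm : 0 < m) : d (m + 1) ≤ d m := by
  unfold d
  have h3 : (0:ℝ) < m := by exact_mod_cast hm
  rw [div_le_div_iff₀ (by positivity) h3, D_succ]
  push_cast
  nlinarith [mul_w_le_D m]

lemma key (m : ℕ) (S : ℝ) (h0 : 0 ≤ S) (hS : S ≤ m) :
    d m * S + 2 * w m ≤ d (m + 1) * (S + 1) := by
  rcases Nat.eq_zero_or_pos m with h | h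
  · subst h
    have : S = 0 := le_antisymm (by simpa using hS) h0
    subst this
    simp [d_one, w_zero]
  · have h1 := d_succ_le m h
    have h2 := d_mul m
    have h3 := d_mul (m + 1)
    rw [D_succ] at h3
    push_cast at h3
    have h4 : (d m - d (m + 1)) * S ≤ (d m - d (m + 1)) * m :=
      mul_le_mul_of_nonneg_left hS (by linarith)
    nlinarith

lemma sum_w_le (Γ : Finset ℕ) : ∑ n ∈ Γ, w n ≤ ∑ k ∈ range Γ.card, w k := by
  induction Γ using Finset.induction_on_max with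
  | empty => simp
  | insert a s ha ih =>
    have hnot : a ∉ s := fun h => lt_irrefl _ (ha a h)
    rw [Finset.sum_insert hnot, Finset.card_insert_of_notMem hnot, Finset.sum_range_succ]
    have hs : s ⊆ range a := fun x hx => Finset.mem_range.mpr (ha x hx)
    have hc : s.card ≤ a := by simpa using Finset.card_le_card hs
    have := w_anti hc
    linarith

lemma sum_w_range (m : ℕ) : ∑ k ∈ range m, w k ≤ 2 * Real.sqrt m := by
  induction m with
  | zero => simp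
  | succ m ih =>
    rw [Finset.sum_range_succ]
    unfold w at *
    push_cast
    have h1 : 0 < Real.sqrt ((m:ℝ) + 1) := by positivity
    have h2 : 0 ≤ Real.sqrt (m:ℝ) := by positivity
    have h3 : Real.sqrt ((m:ℝ) + 1) ^ 2 = m + 1 := Real.sq_sqrt (by positivity)
    have h4 : Real.sqrt (m:ℝ) ^ 2 = m := Real.sq_sqrt (by positivity)
    have h5 : Real.sqrt (m:ℝ) ≤ Real.sqrt ((m:ℝ) + 1) := Real.sqrt_le_sqrt (by linarith)
    have h6 : 1 / Real.sqrt ((m:ℝ) + 1) ≤ 2 * Real.sqrt ((m:ℝ) + 1) - 2 * Real.sqrt (m:ℝ) := by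
      rw [div_le_iff₀ h1]
      nlinarith
    linarith

lemma head_bound (Γ : Finset ℕ) : d Γ.card * ∑ n ∈ Γ, w n ≤ 8 := by
  rcases Nat.eq_zero_or_pos Γ.card with h | h
  · rw [h]; simp [d]
  · have h1 := (sum_w_le Γ).trans (sum_w_range Γ.card)
    have h0 : 0 ≤ ∑ n ∈ Γ, w n := Finset.sum_nonneg (fun k _ => (w_pos k).le)
    have h2 : D Γ.card ≤ 4 * Real.sqrt Γ.card := by
      unfold D
      linarith [sum_w_range Γ.card]
    have hc : (0:ℝ) < Γ.card := by exact_mod_cast h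
    have h3 : Real.sqrt (Γ.card:ℝ) * Real.sqrt (Γ.card:ℝ) = Γ.card := Real.mul_self_sqrt hc.le
    have h4 : 0 ≤ Real.sqrt (Γ.card:ℝ) := Real.sqrt_nonneg _
    unfold d
    rw [div_mul_eq_mul_div, div_le_iff₀ hc]
    calc D Γ.card * ∑ n ∈ Γ, w n ≤ (4 * Real.sqrt Γ.card) * (2 * Real.sqrt Γ.card) :=
          mul_le_mul h2 h1 h0 (by positivity)
      _ = 8 * (Real.sqrt Γ.card * Real.sqrt Γ.card) := by ring
      _ = 8 * (Γ.card : ℝ) := by rw [h3]

lemma alt_bound (K : ℕ) : ∀ a : ℕ → ℝ, Antitone a → (∀ n, 0 ≤ a n) →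
    0 ≤ ∑ n ∈ range K, (-1) ^ n * a n ∧ ∑ n ∈ range K, (-1) ^ n * a n ≤ a 0 := by
  induction K with
  | zero => intro a _ h; simpa using h 0
  | succ K ih =>
    intro a ha h
    rw [Finset.sum_range_succ']
    have h1 := ih (fun n => a (n + 1)) (fun i j hij => ha (by omega)) (fun n => h _)
    have h2 : ∑ k ∈ range K, (-1 : ℝ) ^ (k + 1) * a (k + 1) =
        - ∑ k ∈ range K, (-1 : ℝ) ^ k * a (k + 1) := by
      rw [← Finset.sum_neg_distrib]
      apply Finset.sum_congr rfl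
      intro k _
      rw [pow_succ]; ring
    rw [h2]
    have h3 := ha (Nat.zero_le 1)
    simp at h1 h3 ⊢
    constructor <;> linarith [h1.1, h1.2]

/-- the signed sequence -/
noncomputable def f (n : ℕ) : ℝ := (-1) ^ n * w n

lemma abs_f (n : ℕ) : |f n| = w n := by
  unfold f; rw [abs_mul, abs_pow]; simp [abs_of_pos (w_pos n)]

section constr
variable (𝕜 : Type) [RCLike 𝕜]

/-- inner space -/
noncomputable abbrev E := lp (fun _ : Option ℕ => 𝕜) 1
/-- big space -/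
noncomputable abbrev Y := lp (fun _ : Finset ℕ => E 𝕜) ⊤

noncomputable def bE (n : ℕ) (Γ : Finset ℕ) : E 𝕜 :=
  if n ∈ Γ then lp.single 1 (some n) ((d Γ.card : ℝ) : 𝕜)
  else if Γ.card ≤ n then lp.single 1 none ((f n : ℝ) : 𝕜) else 0

lemma norm_bE_le (n : ℕ) (Γ : Finset ℕ) : ‖bE 𝕜 n Γ‖ ≤ 2 := by
  unfold bE
  split_ifs with h1 h2
  · rw [lp.norm_single (by norm_num)]
    rw [RCLike.norm_ofReal, abs_of_nonneg (d_nonneg _)]
    exact d_le _
  · rw [lp.norm_single (by norm_num)]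
    rw [RCLike.norm_ofReal, abs_f]
    linarith [w_le_one n]
  · simp

noncomputable def b (n : ℕ) : Y 𝕜 :=
  ⟨fun Γ => bE 𝕜 n Γ, memℓp_infty ⟨2, by rintro _ ⟨Γ, rfl⟩; exact norm_bE_le 𝕜 n Γ⟩⟩

lemma b_apply (n : ℕ) (Γ : Finset ℕ) : (b 𝕜 n) Γ = bE 𝕜 n Γ := rfl

/-- coordinates of the big space -/
noncomputable def ev (Γ : Finset ℕ) (i : Option ℕ) : Y 𝕜 →L[𝕜] 𝕜 :=
  (lp.evalCLM 𝕜 (fun _ : Option ℕ => 𝕜) 1 i).comp (lp.evalCLM 𝕜 (fun _ : Finset ℕ => E 𝕜) ⊤ Γ)

lemma ev_apply (Γ : Finset ℕ) (i : Option ℕ) (v : Y 𝕜) : ev 𝕜 Γ i v = v Γ i := rfl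

noncomputable def cY (n : ℕ) : Y 𝕜 →L[𝕜] 𝕜 := (2⁻¹ : 𝕜) • ev 𝕜 {n} (some n)
noncomputable def TY : Y 𝕜 →L[𝕜] 𝕜 := ev 𝕜 ∅ none

lemma ev_b_some (n j : ℕ) (Γ : Finset ℕ) :
    ev 𝕜 Γ (some n) (b 𝕜 j) = if n ∈ Γ ∧ n = j then ((d Γ.card : ℝ) : 𝕜) else 0 := by
  rw [ev_apply, b_apply]
  unfold bE
  by_cases hj : j ∈ Γ
  · rw [if_pos hj, lp.single_apply]
    by_cases hn : n = j
    · subst hn; simp [hj]
    · rw [if_neg (by tauto), Pi.single_eq_of_ne (by simpa using hn)]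
  · rw [if_neg hj]
    have : ¬ (n ∈ Γ ∧ n = j) := by rintro ⟨h1, rfl⟩; exact hj h1
    rw [if_neg this]
    split_ifs with h2
    · rw [lp.single_apply, Pi.single_eq_of_ne (by simp)]
    · simp

lemma ev_b_none (j : ℕ) (Γ : Finset ℕ) :
    ev 𝕜 Γ none (b 𝕜 j) = if j ∈ Γ ∪ range Γ.card then 0 else ((f j : ℝ) : 𝕜) := by
  rw [ev_apply, b_apply]
  unfold bE
  by_cases hj : j ∈ Γ
  · rw [if_pos hj, lp.single_apply, if_pos (by simp [hj]), Pi.single_eq_of_ne (by simp)]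
  · rw [if_neg hj]
    by_cases h2 : Γ.card ≤ j
    · rw [if_pos h2, if_neg (by simp [hj]; omega), lp.single_apply, Pi.single_eq_same]
    · rw [if_neg h2, if_pos (by simp; right; omega)]
      simp

lemma cY_b (n j : ℕ) : cY 𝕜 n (b 𝕜 j) = if n = j then 1 else 0 := by
  unfold cY
  rw [smul_apply, ev_b_some]
  by_cases h : n = j
  · subst h
    have : ((2 : ℝ) : 𝕜) = 2 := RCLike.ofReal_ofNat 2
    simp [d_one, this]
  · simp [h]

lemma TY_b (j : ℕ) : TY 𝕜 (b 𝕜 j) = ((f j : ℝ) : 𝕜) := by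
  unfold TY
  rw [ev_b_none]; simp

/-- the space -/
noncomputable def XS : Submodule 𝕜 (Y 𝕜) := (Submodule.span 𝕜 (Set.range (b 𝕜))).topologicalClosure

lemma eqOn_XS (F G : Y 𝕜 →L[𝕜] 𝕜) (h : ∀ j, F (b 𝕜 j) = G (b 𝕜 j)) (v : Y 𝕜) (hv : v ∈ XS 𝕜) :
    F v = G v := by
  have := ContinuousLinearMap.eqOn_closure_span (s := Set.range (b 𝕜)) (f := F) (g := G)
    (by rintro _ ⟨j, rfl⟩; exact h j)
  exact this hv

lemma ev_some (v : Y 𝕜) (hv : v ∈ XS 𝕜) (Γ : Finset ℕ) (n : ℕ) :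
    ev 𝕜 Γ (some n) v = if n ∈ Γ then ((d Γ.card : ℝ) : 𝕜) * cY 𝕜 n v else 0 := by
  have := eqOn_XS 𝕜 (ev 𝕜 Γ (some n)) (if n ∈ Γ then ((d Γ.card : ℝ) : 𝕜) • cY 𝕜 n else 0) ?_ v hv
  · rw [this]; split_ifs <;> simp
  · intro j
    rw [ev_b_some]
    by_cases h : n ∈ Γ
    · simp [h, cY_b]
    · simp [h]

lemma ev_none (v : Y 𝕜) (hv : v ∈ XS 𝕜) (Γ : Finset ℕ) :
    ev 𝕜 Γ none v = TY 𝕜 v - ∑ n ∈ Γ ∪ range Γ.card, ((f n : ℝ) : 𝕜) * cY 𝕜 n v := by
  have := eqOn_XS 𝕜 (ev 𝕜 Γ none)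
    (TY 𝕜 - ∑ n ∈ Γ ∪ range Γ.card, ((f n : ℝ) : 𝕜) • cY 𝕜 n) ?_ v hv
  · rw [this]; simp
  · intro j
    rw [ev_b_none]
    simp only [sub_apply, _root_.sum_apply,
      smul_apply, TY_b, cY_b, smul_eq_mul, mul_ite, mul_one, mul_zero]
    rw [Finset.sum_ite_eq']
    split_ifs <;> simp

lemma norm_ev (v : Y 𝕜) (hv : v ∈ XS 𝕜) (Γ : Finset ℕ) :
    ‖v Γ‖ = d Γ.card * ∑ n ∈ Γ, ‖cY 𝕜 n v‖ +
      ‖TY 𝕜 v - ∑ n ∈ Γ ∪ range Γ.card, ((f n : ℝ) : 𝕜) * cY 𝕜 n v‖ := by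
  have h1 : ‖v Γ‖ = ∑' i : Option ℕ, ‖v Γ i‖ := by
    rw [lp.norm_eq_tsum_rpow (by norm_num)]
    simp
  rw [h1, tsum_eq_sum (s := Finset.insertNone Γ), Finset.sum_insertNone, Finset.mul_sum, add_comm]
  · congr 1
    · apply Finset.sum_congr rfl
      intro n hn
      rw [← ev_apply, ev_some 𝕜 v hv, if_pos hn, norm_mul, RCLike.norm_ofReal,
        abs_of_nonneg (d_nonneg _)]
    · rw [← ev_apply, ev_none 𝕜 v hv]
  · intro i hi
    cases i with
    | none => simp at hi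
    | some n =>
      have hn : n ∉ Γ := by simpa using hi
      rw [← ev_apply, ev_some 𝕜 v hv, if_neg hn, norm_zero]

end constr

section iface

variable {𝕜 X : Type} [RCLike 𝕜] [NormedAddCommGroup X] [NormedSpace 𝕜 X]

/-- tail functional value -/
noncomputable def tl (xs : ℕ → (X →L[𝕜] 𝕜)) (T : X →L[𝕜] 𝕜) (v : X) (s : Finset ℕ) : 𝕜 :=
  T v - ∑ n ∈ s, ((f n : ℝ) : 𝕜) * xs n v

noncomputable def V (xs : ℕ → (X →L[𝕜] 𝕜)) (T : X →L[𝕜] 𝕜) (v : X) (Γ : Finset ℕ) : ℝ :=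
  d Γ.card * ∑ n ∈ Γ, ‖xs n v‖ + ‖tl xs T v (Γ ∪ range Γ.card)‖

structure Iface (x : ℕ → X) (xs : ℕ → (X →L[𝕜] 𝕜)) (T : X →L[𝕜] 𝕜) : Prop where
  lower : ∀ v Γ, V xs T v Γ ≤ ‖v‖
  upper : ∀ v C, (∀ Γ, V xs T v Γ ≤ C) → ‖v‖ ≤ C
  bi : ∀ n j, xs n (x j) = if n = j then 1 else 0
  Tx : ∀ j, T (x j) = ((f j : ℝ) : 𝕜)
  dense : (Submodule.span 𝕜 (Set.range x)).topologicalClosure = ⊤

variable {x : ℕ → X} {xs : ℕ → (X →L[𝕜] 𝕜)} {T : X →L[𝕜] 𝕜}

lemma xs_sum (h : Iface x xs T) (s : Finset ℕ) (a : ℕ → 𝕜) (n : ℕ) :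
    xs n (∑ j ∈ s, a j • x j) = if n ∈ s then a n else 0 := by
  rw [map_sum]
  simp only [map_smul, h.bi, smul_eq_mul, mul_ite, mul_one, mul_zero]
  rw [Finset.sum_ite_eq]

lemma T_sum (h : Iface x xs T) (s : Finset ℕ) (a : ℕ → 𝕜) :
    T (∑ j ∈ s, a j • x j) = ∑ j ∈ s, ((f j : ℝ) : 𝕜) * a j := by
  rw [map_sum]
  apply Finset.sum_congr rfl
  intro j _
  rw [map_smul, h.Tx, smul_eq_mul, mul_comm]

lemma norm_x_le (h : Iface x xs T) (j : ℕ) : ‖x j‖ ≤ 2 := by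
  apply h.upper
  intro Γ
  unfold V tl
  simp only [h.bi, h.Tx, mul_ite, mul_one, mul_zero]
  have e1 : ∑ n ∈ Γ, ‖(if n = j then (1:𝕜) else 0)‖ = if j ∈ Γ then 1 else 0 := by
    have : ∀ n, ‖(if n = j then (1:𝕜) else 0)‖ = if n = j then 1 else 0 := by
      intro n; split_ifs <;> simp
    simp only [this]
    rw [Finset.sum_ite_eq']
  rw [e1, Finset.sum_ite_eq']
  by_cases hj : j ∈ Γ
  · have : j ∈ Γ ∪ range Γ.card := by simp [hj]
    simp [hj, d_le]
  · by_cases hj2 : j ∈ Γ ∪ range Γ.card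
    · rw [if_neg hj, if_pos hj2]; simp
    · rw [if_neg hj, if_neg hj2]
      simp only [mul_zero, zero_add, sub_zero, RCLike.norm_ofReal, abs_f]
      linarith [w_le_one j]

lemma norm_xs_le (h : Iface x xs T) (n : ℕ) : ‖xs n‖ ≤ 2 := by
  apply ContinuousLinearMap.opNorm_le_bound _ (by norm_num)
  intro v
  have h1 := h.lower v {n}
  unfold V at h1
  simp only [Finset.card_singleton, Finset.sum_singleton, d_one] at h1
  have h2 := norm_nonneg (tl xs T v ({n} ∪ range 1))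
  linarith [norm_nonneg v, norm_nonneg (xs n v)]

/-- enlarge the set by one index -/
lemma V_insert (v : X) (Γ : Finset ℕ) (a : ℕ) (hv : ∀ n, ‖xs n v‖ ≤ 1)
    (ha : a ∉ Γ) (hva : ‖xs a v‖ = 1) : V xs T v Γ ≤ V xs T v (insert a Γ) := by
  unfold V
  rw [Finset.card_insert_of_notMem ha, Finset.sum_insert ha, hva]
  set m := Γ.card with hm
  set S := ∑ n ∈ Γ, ‖xs n v‖ with hS
  have hS0 : 0 ≤ S := Finset.sum_nonneg (fun _ _ => norm_nonneg _)
  have hSm : S ≤ m := by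
    calc S ≤ ∑ n ∈ Γ, (1:ℝ) := Finset.sum_le_sum (fun n _ => hv n)
      _ = m := by simp [hm]
  have hk := key m S hS0 hSm
  have hsub : Γ ∪ range m ⊆ insert a Γ ∪ range (m + 1) := by
    intro n hn
    rw [Finset.mem_union, Finset.mem_range] at hn ⊢
    rcases hn with h | h
    · left; exact Finset.mem_insert_of_mem h
    · right; omega
  have hsd : (insert a Γ ∪ range (m + 1)) \ (Γ ∪ range m) ⊆ {a, m} := by
    intro n hn
    simp only [Finset.mem_sdiff, Finset.mem_union, Finset.mem_insert, Finset.mem_range,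
      Finset.mem_singleton] at hn ⊢
    rcases hn with ⟨(h | h) | h, h2⟩
    · left; exact h
    · exact absurd (Or.inl h) h2
    · right
      have : ¬ n < m := fun h3 => h2 (Or.inr h3)
      omega
  have e : tl xs T v (Γ ∪ range m) = tl xs T v (insert a Γ ∪ range (m + 1)) +
      ∑ n ∈ (insert a Γ ∪ range (m + 1)) \ (Γ ∪ range m), ((f n : ℝ) : 𝕜) * xs n v := by
    unfold tl
    rw [← Finset.sum_sdiff hsub]
    ring
  have hb : ‖∑ n ∈ (insert a Γ ∪ range (m + 1)) \ (Γ ∪ range m), ((f n : ℝ) : 𝕜) * xs n v‖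
      ≤ 2 * w m := by
    have h1 : ‖∑ n ∈ (insert a Γ ∪ range (m + 1)) \ (Γ ∪ range m), ((f n : ℝ) : 𝕜) * xs n v‖
        ≤ ∑ n ∈ (insert a Γ ∪ range (m + 1)) \ (Γ ∪ range m), w m := by
      apply norm_sum_le_of_le
      intro n hn
      rw [norm_mul, RCLike.norm_ofReal, abs_f]
      have hnm : m ≤ n := by
        simp at hn; omega
      have := w_anti hnm
      have h2 := hv n
      nlinarith [w_pos n, norm_nonneg (xs n v)]
    refine h1.trans ?_
    rw [Finset.sum_const, nsmul_eq_mul]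
    have h3 : ((insert a Γ ∪ range (m + 1)) \ (Γ ∪ range m)).card ≤ 2 :=
      (Finset.card_le_card hsd).trans Finset.card_le_two
    have h4 : (((insert a Γ ∪ range (m + 1)) \ (Γ ∪ range m)).card : ℝ) ≤ 2 := by
      exact_mod_cast h3
    exact mul_le_mul_of_nonneg_right h4 (w_pos m).le
  rw [e]
  have := norm_add_le (tl xs T v (insert a Γ ∪ range (m + 1)))
    (∑ n ∈ (insert a Γ ∪ range (m + 1)) \ (Γ ∪ range m), ((f n : ℝ) : 𝕜) * xs n v)
  linarith

lemma V_union (v : X) (Γ : Finset ℕ) (hv : ∀ n, ‖xs n v‖ ≤ 1) (A : Finset ℕ)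
    (hva : ∀ a ∈ A, ‖xs a v‖ = 1) : V xs T v Γ ≤ V xs T v (Γ ∪ A) := by
  induction A using Finset.induction_on with
  | empty => simp
  | insert a s ha ih =>
    have h1 := ih (fun b hb => hva b (Finset.mem_insert_of_mem hb))
    refine h1.trans ?_
    rw [Finset.union_insert]
    by_cases h : a ∈ Γ ∪ s
    · rw [Finset.insert_eq_of_mem h]
    · exact V_insert v _ a hv h (hva a (Finset.mem_insert_self _ _))

/-- value on supersets of `A` -/
lemma V_sup (h : Iface x xs T) (v : X) (A B Γ : Finset ℕ) (ε : ℕ → 𝕜)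
    (hv0 : ∀ n ∈ A ∪ B, xs n v = 0) (hε : ∀ n ∈ A, ‖ε n‖ = 1) (hA : A ⊆ Γ) :
    V xs T (v + ∑ n ∈ A, ε n • x n) Γ = d Γ.card * (A.card + ∑ n ∈ Γ \ (A ∪ B), ‖xs n v‖) +
      ‖tl xs T v ((Γ ∪ range Γ.card) \ (A ∪ B))‖ := by
  have hc : ∀ n, xs n (v + ∑ n ∈ A, ε n • x n) = xs n v + if n ∈ A then ε n else 0 := by
    intro n
    rw [map_add, xs_sum h]
  unfold V
  congr 1
  · congr 1
    have h1 : ∑ n ∈ Γ, ‖xs n (v + ∑ n ∈ A, ε n • x n)‖
        = ∑ n ∈ Γ, ((if n ∈ A then 1 else 0) + if n ∈ A ∪ B then 0 else ‖xs n v‖) := by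
      apply Finset.sum_congr rfl
      intro n hn
      rw [hc]
      by_cases h1 : n ∈ A
      · rw [if_pos h1, if_pos h1, if_pos (Finset.mem_union_left _ h1),
          hv0 n (Finset.mem_union_left _ h1), zero_add, hε n h1, add_zero]
      · rw [if_neg h1, if_neg h1, zero_add, add_zero]
        by_cases h2 : n ∈ A ∪ B
        · rw [if_pos h2, hv0 n h2, norm_zero]
        · rw [if_neg h2]
    rw [h1, Finset.sum_add_distrib]
    congr 1
    · rw [Finset.sum_ite_mem, Finset.inter_eq_right.mpr hA]; simp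
    · rw [Finset.sdiff_eq_filter, Finset.sum_filter]
      apply Finset.sum_congr rfl
      intro n _
      by_cases h2 : n ∈ A ∪ B
      · rw [if_pos h2, if_neg (not_not.mpr h2)]
      · rw [if_neg h2, if_pos h2]
  · congr 1
    unfold tl
    rw [map_add, T_sum h]
    simp only [hc, mul_add, Finset.sum_add_distrib, mul_ite, mul_zero]
    have hA2 : A ⊆ Γ ∪ range Γ.card := hA.trans Finset.subset_union_left
    rw [Finset.sum_ite_mem, Finset.inter_eq_right.mpr hA2]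
    have : ∑ n ∈ Γ ∪ range Γ.card, ((f n : ℝ) : 𝕜) * xs n v =
        ∑ n ∈ (Γ ∪ range Γ.card) \ (A ∪ B), ((f n : ℝ) : 𝕜) * xs n v := by
      symm
      apply Finset.sum_subset Finset.sdiff_subset
      intro n h1 h2
      have : n ∈ A ∪ B := by
        by_contra h3
        exact h2 (Finset.mem_sdiff.mpr ⟨h1, h3⟩)
      rw [hv0 n this, mul_zero]
    rw [this]
    ring

lemma propA_le (h : Iface x xs T) (v : X) (A B : Finset ℕ) (ε η : ℕ → 𝕜)
    (hv : ∀ n, ‖xs n v‖ ≤ 1) (hcard : A.card = B.card)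
    (hAB : Disjoint A B) (hv0 : ∀ n ∈ A ∪ B, xs n v = 0) (hε : ∀ n ∈ A, ‖ε n‖ = 1)
    (hη : ∀ n ∈ B, ‖η n‖ = 1) :
    ‖v + ∑ n ∈ A, ε n • x n‖ ≤ ‖v + ∑ n ∈ B, η n • x n‖ := by
  apply h.upper
  intro Γ₀
  have hc : ∀ n, xs n (v + ∑ n ∈ A, ε n • x n) = xs n v + if n ∈ A then ε n else 0 := by
    intro n
    rw [map_add, xs_sum h]
  have h1 : V xs T (v + ∑ n ∈ A, ε n • x n) Γ₀ ≤ V xs T (v + ∑ n ∈ A, ε n • x n) (Γ₀ ∪ A) := by
    apply V_union
    · intro n
      rw [hc]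
      by_cases h1 : n ∈ A
      · rw [if_pos h1, hv0 n (Finset.mem_union_left _ h1), zero_add, hε n h1]
      · rw [if_neg h1, add_zero]; exact hv n
    · intro n h1
      rw [hc, if_pos h1, hv0 n (Finset.mem_union_left _ h1), zero_add, hε n h1]
  refine h1.trans ?_
  set Γ := Γ₀ ∪ A with hΓ
  have hA : A ⊆ Γ := Finset.subset_union_right
  rw [V_sup h v A B Γ ε hv0 hε hA]
  -- choose the swapped set
  obtain ⟨A', hA'1, hA'2⟩ : ∃ A' ⊆ A, A'.card = (Γ ∩ B).card := by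
    apply Finset.exists_subset_card_eq
    rw [hcard]
    exact Finset.card_le_card Finset.inter_subset_right
  set Γ' := (Γ \ (A ∪ B)) ∪ (B ∪ A') with hΓ'
  have hd1 : Disjoint B A' := (hAB.mono_left hA'1).symm
  have hd2 : Disjoint (Γ \ (A ∪ B)) (B ∪ A') := by
    rw [Finset.disjoint_left]
    intro n hn hn2
    simp at hn hn2
    rcases hn2 with h3 | h3
    · exact hn.2.2 h3
    · exact hn.2.1 (hA'1 h3)
  have hcardΓ : Γ'.card = Γ.card := by
    rw [hΓ', Finset.card_union_of_disjoint hd2, Finset.card_union_of_disjoint hd1, hA'2, ← hcard]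
    have e1 : Γ = (Γ \ (A ∪ B)) ∪ (A ∪ (Γ ∩ B)) := by
      ext n
      simp only [Finset.mem_union, Finset.mem_sdiff, Finset.mem_inter]
      constructor
      · intro hn; tauto
      · rintro (h3 | h3 | h3)
        · exact h3.1
        · exact hA h3
        · exact h3.1
    have hd3 : Disjoint A (Γ ∩ B) := hAB.mono_right Finset.inter_subset_right
    have hd4 : Disjoint (Γ \ (A ∪ B)) (A ∪ (Γ ∩ B)) := by
      rw [Finset.disjoint_left]
      intro n hn hn2
      simp at hn hn2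
      tauto
    conv_rhs => rw [e1]
    rw [Finset.card_union_of_disjoint hd4, Finset.card_union_of_disjoint hd3]
  have hB : B ⊆ Γ' := by
    intro n hn; rw [hΓ']; simp [hn]
  have hsd : Γ' \ (B ∪ A) = Γ \ (A ∪ B) := by
    ext n
    rw [hΓ']
    simp only [Finset.mem_union, Finset.mem_sdiff]
    constructor
    · rintro ⟨h3 | h3 | h3, h4⟩
      · exact h3
      · tauto
      · exact absurd (Or.inr (hA'1 h3)) h4
    · intro h3; tauto
  have hsd2 : (Γ' ∪ range Γ'.card) \ (B ∪ A) = (Γ ∪ range Γ.card) \ (A ∪ B) := by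
    rw [Finset.union_sdiff_distrib Γ', Finset.union_sdiff_distrib Γ, hsd, hcardΓ,
      Finset.union_comm B A]
  have h2 := V_sup h v B A Γ' η (by rw [Finset.union_comm]; exact hv0) hη hB
  have h3 := h.lower (v + ∑ n ∈ B, η n • x n) Γ'
  rw [h2, hsd, hsd2, hcardΓ, ← hcard] at h3
  exact h3

lemma propA (h : Iface x xs T) : PropertyA x xs := by
  intro v A B ε η hv hcard hAB hv0 hε hη
  apply le_antisymm
  · exact propA_le h v A B ε η hv hcard hAB hv0 hε hη
  · exact propA_le h v B A η ε hv hcard.symm hAB.symm (by rw [Finset.union_comm]; exact hv0) hη hε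

/-- partial sums -/
noncomputable def PK (x : ℕ → X) (xs : ℕ → (X →L[𝕜] 𝕜)) (K : ℕ) (v : X) : X :=
  ∑ n ∈ range K, xs n v • x n

lemma norm_PK_le (h : Iface x xs T) (K : ℕ) (v : X) : ‖PK x xs K v‖ ≤ 2 * ‖v‖ := by
  apply h.upper
  intro Γ
  have hc : ∀ n, xs n (PK x xs K v) = if n ∈ range K then xs n v else 0 := by
    intro n
    unfold PK
    rw [xs_sum h]
  have hhead : ∑ n ∈ Γ, ‖xs n (PK x xs K v)‖ ≤ ∑ n ∈ Γ, ‖xs n v‖ := by
    apply Finset.sum_le_sum
    intro n _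
    rw [hc]
    split_ifs
    · exact le_rfl
    · simp
  have hhead2 : d Γ.card * ∑ n ∈ Γ, ‖xs n (PK x xs K v)‖ ≤ d Γ.card * ∑ n ∈ Γ, ‖xs n v‖ :=
    mul_le_mul_of_nonneg_left hhead (d_nonneg _)
  have htail : tl xs T (PK x xs K v) (Γ ∪ range Γ.card) =
      ∑ n ∈ range K \ (Γ ∪ range Γ.card), ((f n : ℝ) : 𝕜) * xs n v := by
    unfold tl
    simp only [hc, mul_ite, mul_zero]
    rw [Finset.sum_ite_mem]
    unfold PK
    rw [T_sum h, Finset.inter_comm, ← Finset.sum_sdiff (Finset.inter_subset_left :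
      range K ∩ (Γ ∪ range Γ.card) ⊆ range K), Finset.sdiff_inter_self_left]
    ring
  have hl := h.lower v Γ
  unfold V at hl ⊢
  rw [htail]
  rcases le_or_gt K Γ.card with hK | hK
  · have : range K \ (Γ ∪ range Γ.card) = ∅ := by
      ext n
      simp only [Finset.mem_sdiff, Finset.mem_union, Finset.mem_range, Finset.notMem_empty,
        iff_false]
      omega
    rw [this, Finset.sum_empty, norm_zero, add_zero]
    have := norm_nonneg (tl xs T v (Γ ∪ range Γ.card))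
    linarith [norm_nonneg v]
  · obtain ⟨Γ', h1, h2, h3⟩ : ∃ Γ', Γ ⊆ Γ' ∧ Γ' ⊆ Γ ∪ range K ∧ Γ'.card = K := by
      apply Finset.exists_subsuperset_card_eq Finset.subset_union_left hK.le
      calc K = (range K).card := by simp
        _ ≤ _ := Finset.card_le_card Finset.subset_union_right
    have hU : Γ' ∪ range Γ'.card = Γ ∪ range K := by
      rw [h3]
      apply Finset.Subset.antisymm
      · exact Finset.union_subset h2 Finset.subset_union_right
      · exact Finset.union_subset_union_left h1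
    have hl' := h.lower v Γ'
    unfold V at hl'
    rw [hU] at hl'
    have e : ∑ n ∈ range K \ (Γ ∪ range Γ.card), ((f n : ℝ) : 𝕜) * xs n v =
        tl xs T v (Γ ∪ range Γ.card) - tl xs T v (Γ ∪ range K) := by
      unfold tl
      have hsub : Γ ∪ range Γ.card ⊆ Γ ∪ range K :=
        Finset.union_subset_union_right (by
          intro n hn; rw [Finset.mem_range] at *; omega)
      have hs : (Γ ∪ range K) \ (Γ ∪ range Γ.card) = range K \ (Γ ∪ range Γ.card) := by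
        ext n
        simp only [Finset.mem_sdiff, Finset.mem_union]
        tauto
      rw [← Finset.sum_sdiff hsub, hs]
      ring
    rw [e]
    have h5 := norm_sub_le (tl xs T v (Γ ∪ range Γ.card)) (tl xs T v (Γ ∪ range K))
    have h6 : 0 ≤ d Γ'.card * ∑ n ∈ Γ', ‖xs n v‖ :=
      mul_nonneg (d_nonneg _) (Finset.sum_nonneg (fun _ _ => norm_nonneg _))
    linarith

lemma PK_sub (K : ℕ) (v y : X) : PK x xs K (v - y) = PK x xs K v - PK x xs K y := by
  unfold PK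
  rw [← Finset.sum_sub_distrib]
  apply Finset.sum_congr rfl
  intro n _
  rw [map_sub, sub_smul]

lemma PK_span (h : Iface x xs T) (y : X) (hy : y ∈ Submodule.span 𝕜 (Set.range x)) :
    ∃ K₀, ∀ K, K₀ ≤ K → PK x xs K y = y := by
  induction hy using Submodule.span_induction with
  | mem y hy =>
    obtain ⟨j, rfl⟩ := hy
    refine ⟨j + 1, fun K hK => ?_⟩
    unfold PK
    simp only [h.bi, ite_smul, one_smul, zero_smul]
    rw [Finset.sum_ite_eq', if_pos (by rw [Finset.mem_range]; omega)]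
  | zero => exact ⟨0, fun K _ => by simp [PK]⟩
  | add y z _ _ h1 h2 =>
    obtain ⟨K1, h1⟩ := h1
    obtain ⟨K2, h2⟩ := h2
    refine ⟨max K1 K2, fun K hK => ?_⟩
    have e : PK x xs K (y + z) = PK x xs K y + PK x xs K z := by
      unfold PK
      rw [← Finset.sum_add_distrib]
      apply Finset.sum_congr rfl
      intro n _
      rw [map_add, add_smul]
    rw [e, h1 K ((le_max_left _ _).trans hK), h2 K ((le_max_right _ _).trans hK)]
  | smul a y _ h1 =>
    obtain ⟨K1, h1⟩ := h1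
    refine ⟨K1, fun K hK => ?_⟩
    have e : PK x xs K (a • y) = a • PK x xs K y := by
      unfold PK
      rw [Finset.smul_sum]
      apply Finset.sum_congr rfl
      intro n _
      rw [map_smul, smul_assoc]
    rw [e, h1 K hK]

lemma schauder (h : Iface x xs T) (v : X) :
    Tendsto (fun K => ∑ n ∈ range K, xs n v • x n) atTop (𝓝 v) := by
  change Tendsto (fun K => PK x xs K v) atTop (𝓝 v)
  rw [Metric.tendsto_atTop]
  intro ε hε
  have hv : v ∈ (Submodule.span 𝕜 (Set.range x)).topologicalClosure := by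
    rw [h.dense]; trivial
  have hv2 : v ∈ closure ((Submodule.span 𝕜 (Set.range x) : Submodule 𝕜 X) : Set X) := hv
  rw [Metric.mem_closure_iff] at hv2
  obtain ⟨y, hy, hd⟩ := hv2 (ε / 4) (by linarith)
  obtain ⟨K₀, hK₀⟩ := PK_span h y hy
  refine ⟨K₀, fun K hK => ?_⟩
  rw [dist_eq_norm] at hd ⊢
  have e : PK x xs K v - v = PK x xs K (v - y) - (v - y) := by
    rw [PK_sub, hK₀ K hK]; abel
  rw [e]
  have h1 := norm_sub_le (PK x xs K (v - y)) (v - y)
  have h2 := norm_PK_le h K (v - y)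
  linarith

lemma norm_z_le (h : Iface x xs T) (K : ℕ) :
    ‖∑ n ∈ range K, ((w n : ℝ) : 𝕜) • x n‖ ≤ 10 := by
  apply h.upper
  intro Γ
  have hc : ∀ n, xs n (∑ n ∈ range K, ((w n : ℝ) : 𝕜) • x n) =
      if n ∈ range K then ((w n : ℝ) : 𝕜) else 0 := fun n => xs_sum h _ _ n
  unfold V
  have hhead : ∑ n ∈ Γ, ‖xs n (∑ n ∈ range K, ((w n : ℝ) : 𝕜) • x n)‖ ≤ ∑ n ∈ Γ, w n := by
    apply Finset.sum_le_sum
    intro n _
    rw [hc]
    split_ifs
    · rw [RCLike.norm_ofReal, abs_of_pos (w_pos n)]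
    · rw [norm_zero]; exact (w_pos n).le
  have hhead2 : d Γ.card * ∑ n ∈ Γ, ‖xs n (∑ n ∈ range K, ((w n : ℝ) : 𝕜) • x n)‖ ≤ 8 :=
    (mul_le_mul_of_nonneg_left hhead (d_nonneg _)).trans (head_bound Γ)
  have htail : tl xs T (∑ n ∈ range K, ((w n : ℝ) : 𝕜) • x n) (Γ ∪ range Γ.card) =
      ((∑ n ∈ range K \ (Γ ∪ range Γ.card), (-1) ^ n * (1 / (n + 1 : ℝ)) : ℝ) : 𝕜) := by
    unfold tl
    simp only [hc, mul_ite, mul_zero]
    rw [Finset.sum_ite_mem]
    rw [T_sum h, Finset.inter_comm, ← Finset.sum_sdiff (Finset.inter_subset_left :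
      range K ∩ (Γ ∪ range Γ.card) ⊆ range K), Finset.sdiff_inter_self_left, add_sub_cancel_right]
    push_cast
    apply Finset.sum_congr rfl
    intro n _
    have : f n * w n = (-1) ^ n * (1 / (n + 1 : ℝ)) := by
      unfold f; rw [mul_assoc, w_sq]
    have h2 := congrArg (fun t : ℝ => (t : 𝕜)) this
    push_cast at h2
    exact h2
  rw [htail, RCLike.norm_ofReal]
  set m := Γ.card with hm
  have hanti : Antitone (fun n : ℕ => 1 / (n + 1 : ℝ)) := by
    intro a b hab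
    have : (a:ℝ) ≤ b := by exact_mod_cast hab
    apply one_div_le_one_div_of_le (by positivity)
    linarith
  have hpos : ∀ n : ℕ, 0 ≤ 1 / (n + 1 : ℝ) := fun n => by positivity
  have h1 := alt_bound K (fun n : ℕ => 1 / (n + 1 : ℝ)) hanti hpos
  have h2 := alt_bound (min K m) (fun n : ℕ => 1 / (n + 1 : ℝ)) hanti hpos
  simp only [Nat.cast_zero, zero_add, div_one] at h1 h2
  -- split the sum
  have hA : ∑ n ∈ range K \ (Γ ∪ range m), (-1) ^ n * (1 / (n + 1 : ℝ)) =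
      (∑ n ∈ range K, (-1) ^ n * (1 / (n + 1 : ℝ)) - ∑ n ∈ range (min K m), (-1) ^ n * (1 / (n + 1 : ℝ)))
      - ∑ n ∈ (range K \ range m) ∩ Γ, (-1) ^ n * (1 / (n + 1 : ℝ)) := by
    have e1 : range (min K m) = range K ∩ range m := by
      ext n; simp
    have e2 : range K \ (Γ ∪ range m) = (range K \ range m) \ ((range K \ range m) ∩ Γ) := by
      ext n; simp; tauto
    have e3 : range K \ range m = range K \ (range K ∩ range m) := by
      rw [Finset.sdiff_inter_self_left]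
    rw [e2, Finset.sum_sdiff_eq_sub Finset.inter_subset_left]
    congr 1
    rw [e3, Finset.sum_sdiff_eq_sub Finset.inter_subset_left, e1]
  have hB : |∑ n ∈ (range K \ range m) ∩ Γ, (-1) ^ n * (1 / (n + 1 : ℝ))| ≤ 1 := by
    calc |∑ n ∈ (range K \ range m) ∩ Γ, (-1) ^ n * (1 / (n + 1 : ℝ))|
        ≤ ∑ n ∈ (range K \ range m) ∩ Γ, |(-1) ^ n * (1 / (n + 1 : ℝ))| :=
          Finset.abs_sum_le_sum_abs _ _
      _ ≤ ∑ n ∈ (range K \ range m) ∩ Γ, (1 / (m + 1 : ℝ)) := by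
          apply Finset.sum_le_sum
          intro n hn
          rw [abs_mul, abs_pow, abs_neg, abs_one, one_pow, one_mul, abs_of_nonneg (hpos n)]
          apply hanti
          simp at hn; omega
      _ ≤ ∑ n ∈ Γ, (1 / (m + 1 : ℝ)) := by
          apply Finset.sum_le_sum_of_subset_of_nonneg Finset.inter_subset_right
          intro n _ _; positivity
      _ = m / (m + 1 : ℝ) := by simp [hm]; ring
      _ ≤ 1 := by
          rw [div_le_one (by positivity)]; linarith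
  have hC : |∑ n ∈ range K \ (Γ ∪ range m), (-1) ^ n * (1 / (n + 1 : ℝ))| ≤ 2 := by
    rw [hA, abs_le]
    rw [abs_le] at hB
    constructor <;> linarith [h1.1, h1.2, h2.1, h2.2, hB.1, hB.2]
  linarith

lemma not_uncond [CompleteSpace X] (h : Iface x xs T) :
    ¬ ∀ v, HasSum (fun n => xs n v • x n) v := by
  intro hu
  -- the functionals
  let φ : ℕ → (X →L[𝕜] 𝕜) := fun K => ∑ n ∈ range K, ((w n : ℝ) : 𝕜) • xs n
  have hφ : ∀ K v, φ K v = ∑ n ∈ range K, ((w n : ℝ) : 𝕜) * xs n v := by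
    intro K v; simp [φ]
  have hb : ∀ v, ∃ C, ∀ K, ‖φ K v‖ ≤ C := by
    intro v
    have h1 : HasSum (fun n => T (xs n v • x n)) (T v) := (hu v).mapL T
    have h2 : Summable (fun n => ‖T (xs n v • x n)‖) := h1.summable.norm
    refine ⟨∑' n, ‖T (xs n v • x n)‖, fun K => ?_⟩
    rw [hφ]
    calc ‖∑ n ∈ range K, ((w n : ℝ) : 𝕜) * xs n v‖ ≤ ∑ n ∈ range K, ‖T (xs n v • x n)‖ := by
          apply norm_sum_le_of_le
          intro n _
          rw [map_smul, h.Tx, smul_eq_mul, norm_mul, norm_mul, RCLike.norm_ofReal,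
            RCLike.norm_ofReal, abs_f, abs_of_pos (w_pos n), mul_comm]
      _ ≤ _ := h2.sum_le_tsum _ (fun n _ => norm_nonneg _)
  obtain ⟨C, hC⟩ := banach_steinhaus hb
  have hH := Real.tendsto_sum_range_one_div_nat_succ_atTop
  have hC0 : 0 ≤ C := (norm_nonneg _).trans (hC 0)
  obtain ⟨K, hK⟩ := (hH.eventually_gt_atTop (C * 10)).exists
  have h1 : φ K (∑ n ∈ range K, ((w n : ℝ) : 𝕜) • x n) =
      ((∑ n ∈ range K, (1 / (n + 1 : ℝ)) : ℝ) : 𝕜) := by
    rw [hφ]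
    push_cast
    apply Finset.sum_congr rfl
    intro n hn
    rw [xs_sum h, if_pos hn]
    have h2 := congrArg (fun t : ℝ => (t : 𝕜)) (w_sq n)
    push_cast at h2
    exact h2
  have h2 := (φ K).le_opNorm (∑ n ∈ range K, ((w n : ℝ) : 𝕜) • x n)
  rw [h1, RCLike.norm_ofReal] at h2
  have h3 : ‖φ K‖ * ‖∑ n ∈ range K, ((w n : ℝ) : 𝕜) • x n‖ ≤ C * 10 :=
    mul_le_mul (hC K) (norm_z_le h K) (norm_nonneg _) hC0
  have h4 := le_abs_self (∑ n ∈ range K, (1 / (n + 1 : ℝ)))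
  linarith

end iface


section final

variable (𝕜 : Type) [RCLike 𝕜]

noncomputable def xv (n : ℕ) : XS 𝕜 :=
  ⟨b 𝕜 n, Submodule.le_topologicalClosure _ (Submodule.subset_span ⟨n, rfl⟩)⟩

noncomputable def xst (n : ℕ) : XS 𝕜 →L[𝕜] 𝕜 := (cY 𝕜 n).comp (XS 𝕜).subtypeL

noncomputable def TX : XS 𝕜 →L[𝕜] 𝕜 := (TY 𝕜).comp (XS 𝕜).subtypeL

lemma V_eq (v : XS 𝕜) (Γ : Finset ℕ) :
    V (xst 𝕜) (TX 𝕜) v Γ = ‖(v : Y 𝕜) Γ‖ := by
  rw [norm_ev 𝕜 v.1 v.2]
  rfl

lemma dense_XS : (Submodule.span 𝕜 (Set.range (xv 𝕜))).topologicalClosure = ⊤ := by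
  rw [eq_top_iff]
  rintro ⟨v, hv⟩ _
  have hv2 : v ∈ closure ((Submodule.span 𝕜 (Set.range (b 𝕜)) : Submodule 𝕜 (Y 𝕜)) : Set (Y 𝕜)) := hv
  change (⟨v, hv⟩ : XS 𝕜) ∈
    closure ((Submodule.span 𝕜 (Set.range (xv 𝕜)) : Submodule 𝕜 (XS 𝕜)) : Set (XS 𝕜))
  rw [Metric.mem_closure_iff] at hv2 ⊢
  intro ε hε
  obtain ⟨y, hy, hd⟩ := hv2 ε hε
  have hy2 : y ∈ XS 𝕜 := Submodule.le_topologicalClosure _ hy
  refine ⟨⟨y, hy2⟩, ?_, hd⟩
  have key : ∀ z ∈ Submodule.span 𝕜 (Set.range (b 𝕜)), ∀ hz : z ∈ XS 𝕜,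
      (⟨z, hz⟩ : XS 𝕜) ∈ Submodule.span 𝕜 (Set.range (xv 𝕜)) := by
    intro z hz
    induction hz using Submodule.span_induction with
    | mem z hz =>
      intro _
      obtain ⟨j, rfl⟩ := hz
      exact Submodule.subset_span ⟨j, rfl⟩
    | zero => intro _; exact Submodule.zero_mem _
    | add z1 z2 h1 h2 i1 i2 =>
      intro _
      exact Submodule.add_mem _ (i1 (Submodule.le_topologicalClosure _ h1))
        (i2 (Submodule.le_topologicalClosure _ h2))
    | smul a z1 h1 i1 =>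
      intro _
      exact Submodule.smul_mem _ a (i1 (Submodule.le_topologicalClosure _ h1))
  exact key y hy hy2

lemma iface : Iface (xv 𝕜) (xst 𝕜) (TX 𝕜) where
  lower := by
    intro v Γ
    rw [V_eq]
    exact lp.norm_apply_le_norm ENNReal.top_ne_zero (v : Y 𝕜) Γ
  upper := by
    intro v C h
    change ‖(v : Y 𝕜)‖ ≤ C
    apply lp.norm_le_of_forall_le' C
    intro Γ
    rw [← V_eq]
    exact h Γ
  bi := fun n j => cY_b 𝕜 n j
  Tx := fun j => TY_b 𝕜 j
  dense := dense_XS 𝕜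

end final

/-- Over the real and over the complex field there is a Banach space with a basis that has
Property (A), is even a Schauder basis, and is not unconditional. -/
theorem result (𝕜 : Type) [RCLike 𝕜] :
    ∃ (X : Type) (_ : NormedAddCommGroup X) (_ : NormedSpace 𝕜 X) (_ : CompleteSpace X)
      (x : ℕ → X) (xs : ℕ → (X →L[𝕜] 𝕜)),
      IsBasis x xs ∧ PropertyA x xs ∧
      (∀ v, Tendsto (fun K => ∑ n ∈ range K, xs n v • x n) atTop (𝓝 v)) ∧
      ¬ IsUnconditional x xs := by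
  have hcl : IsClosed (XS 𝕜 : Set (Y 𝕜)) := Submodule.isClosed_topologicalClosure _
  have hco : CompleteSpace (XS 𝕜) := hcl.completeSpace_coe
  refine ⟨XS 𝕜, inferInstance, inferInstance, hco, xv 𝕜, xst 𝕜, ?_, propA (iface 𝕜),
    schauder (iface 𝕜), not_uncond (iface 𝕜)⟩
  refine ⟨(iface 𝕜).dense, (iface 𝕜).bi, ?_, 2, fun n => ⟨norm_x_le (iface 𝕜) n,
    norm_xs_le (iface 𝕜) n⟩⟩
  intro v hv
  have h := schauder (iface 𝕜) v
  simp only [hv, zero_smul, Finset.sum_const_zero] at h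
  exact (tendsto_nhds_unique h tendsto_const_nhds)

end Pool.Agent.Results.MP_e9a5f2_an.PropertyANotUnconditional
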